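import Mathlib

/-!
# The two exponentiations on the Stone-Cech compactification of the positive integers

Here `ℕ+` is the set of positive integers.  For ultrafilters `p`, `q` on `ℕ+` let
`E₁(p,q) = {A : {n : {m : n^m ∈ A} ∈ q} ∈ p}` and
`E₂(p,q) = {A : {n : {m : m^n ∈ A} ∈ q} ∈ p}`.

We show that `E₁(p,q) = E₂(p,q)` happens only when both `p` and `q` are principal, generated by
`a` and `b` with `a^b = b^a`.  In particular there is no coincidence among nonprincipal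
ultrafilters, so the set of pairs asked for in Q1 is empty and the answer to Q2 is no.

Idea: the triple iterated logarithm sends `n^m` to `log log m + O(1)` and `m^n` to
`log log log m + O(1)` for `n` fixed and `m` large, with the bounded error constant on a set of
the ultrafilter.  A coincidence would make an ultrafilter a fixed point of a strictly decreasing
function, which is impossible.
-/

namespace Pool.Agent.Results.MP_846ee0_co.NoCoincidence

open Filter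

/-- `E₁(p,q) = {A ⊆ ℕ+ : {n : {m : n^m ∈ A} ∈ q} ∈ p}`. -/
def E1 (p q : Ultrafilter ℕ+) : Set (Set ℕ+) :=
  {A | {n : ℕ+ | {m : ℕ+ | n ^ (m : ℕ) ∈ A} ∈ q} ∈ p}

/-- `E₂(p,q) = {A ⊆ ℕ+ : {n : {m : m^n ∈ A} ∈ q} ∈ p}`. -/
def E2 (p q : Ultrafilter ℕ+) : Set (Set ℕ+) :=
  {A | {n : ℕ+ | {m : ℕ+ | m ^ (n : ℕ) ∈ A} ∈ q} ∈ p}

/-! ### Estimates for iterated binary logarithms -/

lemma log_sq_le {y : ℕ} (hy : 2 ≤ y) : Nat.log 2 (y ^ 2) ≤ 4 * Nat.log 2 y := by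
  have h1 : y < 2 ^ (Nat.log 2 y + 1) := Nat.lt_pow_succ_log_self (by norm_num) y
  have h2 : y ^ 2 < 2 ^ (2 * Nat.log 2 y + 2) := by
    calc y ^ 2 < (2 ^ (Nat.log 2 y + 1)) ^ 2 := Nat.pow_lt_pow_left h1 (by norm_num)
      _ = 2 ^ (2 * Nat.log 2 y + 2) := by rw [← pow_mul]; ring_nf
  have h3 : Nat.log 2 (y ^ 2) < 2 * Nat.log 2 y + 2 :=
    Nat.log_lt_of_lt_pow (by positivity) h2
  have h4 : 1 ≤ Nat.log 2 y := Nat.log_pos (by norm_num) hy
  omega

lemma log_four_mul {z : ℕ} (hz : 1 ≤ z) : Nat.log 2 (4 * z) = Nat.log 2 z + 2 := by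
  have h : 4 * z = z * 2 * 2 := by ring
  rw [h, Nat.log_mul_base (by norm_num) (by omega), Nat.log_mul_base (by norm_num) (by omega)]

/-- Fixed base `b ≥ 2`, large exponent `x`. -/
lemma log_base {b : ℕ} (hb : 2 ≤ b) {x : ℕ} (hx : b + 2 ≤ x) :
    Nat.log 2 (Nat.log 2 x) ≤ Nat.log 2 (Nat.log 2 (Nat.log 2 (b ^ x))) ∧
    Nat.log 2 (Nat.log 2 (Nat.log 2 (b ^ x))) ≤ Nat.log 2 (Nat.log 2 x) + 2 := by
  have h1 : x ≤ Nat.log 2 (b ^ x) :=
    Nat.le_log_of_pow_le (by norm_num) (Nat.pow_le_pow_left hb x)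
  have h2 : Nat.log 2 (b ^ x) ≤ x ^ 2 := by
    have hb' : b ≤ 2 ^ b := Nat.lt_two_pow_self.le
    have h3 : b ^ x ≤ 2 ^ (x ^ 2) := by
      calc b ^ x ≤ (2 ^ b) ^ x := Nat.pow_le_pow_left hb' x
        _ = 2 ^ (b * x) := by rw [← pow_mul]
        _ ≤ 2 ^ (x ^ 2) := by
          apply Nat.pow_le_pow_right (by norm_num)
          rw [sq]
          exact Nat.mul_le_mul_right x (by omega)
    calc Nat.log 2 (b ^ x) ≤ Nat.log 2 (2 ^ (x ^ 2)) := Nat.log_mono_right h3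
      _ = x ^ 2 := Nat.log_pow (by norm_num) _
  have hx2 : 2 ≤ x := by omega
  have h4 : 1 ≤ Nat.log 2 x := Nat.log_pos (by norm_num) hx2
  refine ⟨Nat.log_mono_right (Nat.log_mono_right h1), ?_⟩
  calc Nat.log 2 (Nat.log 2 (Nat.log 2 (b ^ x))) ≤ Nat.log 2 (Nat.log 2 (x ^ 2)) :=
        Nat.log_mono_right (Nat.log_mono_right h2)
    _ ≤ Nat.log 2 (4 * Nat.log 2 x) := Nat.log_mono_right (log_sq_le hx2)
    _ = Nat.log 2 (Nat.log 2 x) + 2 := log_four_mul h4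

/-- Fixed exponent `b ≥ 1`, large base `x`. -/
lemma log_exp {b : ℕ} (hb : 1 ≤ b) {x : ℕ} (hx : 2 ^ (2 * b + 2) ≤ x) :
    Nat.log 2 (Nat.log 2 (Nat.log 2 x)) ≤ Nat.log 2 (Nat.log 2 (Nat.log 2 (x ^ b))) ∧
    Nat.log 2 (Nat.log 2 (Nat.log 2 (x ^ b))) ≤ Nat.log 2 (Nat.log 2 (Nat.log 2 x)) + 2 := by
  have hx1 : 1 ≤ x := le_trans Nat.one_le_two_pow hx
  have h1 : x ≤ x ^ b := by
    calc x = x ^ 1 := (pow_one x).symm
      _ ≤ x ^ b := Nat.pow_le_pow_right hx1 hb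
  set y := Nat.log 2 x with hy
  have hyb : 2 * b + 2 ≤ y := by
    rw [hy]
    exact Nat.le_log_of_pow_le (by norm_num) hx
  have h2 : Nat.log 2 (x ^ b) ≤ y ^ 2 := by
    have h3 : x < 2 ^ (y + 1) := Nat.lt_pow_succ_log_self (by norm_num) x
    have h4 : x ^ b ≤ 2 ^ (y ^ 2) := by
      calc x ^ b ≤ (2 ^ (y + 1)) ^ b := Nat.pow_le_pow_left h3.le b
        _ = 2 ^ ((y + 1) * b) := by rw [← pow_mul]
        _ ≤ 2 ^ (y ^ 2) := by
          apply Nat.pow_le_pow_right (by norm_num)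
          nlinarith
    calc Nat.log 2 (x ^ b) ≤ Nat.log 2 (2 ^ (y ^ 2)) := Nat.log_mono_right h4
      _ = y ^ 2 := Nat.log_pow (by norm_num) _
  have hy2 : 2 ≤ y := by omega
  have h4 : 1 ≤ Nat.log 2 y := Nat.log_pos (by norm_num) hy2
  refine ⟨Nat.log_mono_right (Nat.log_mono_right (Nat.log_mono_right h1)), ?_⟩
  calc Nat.log 2 (Nat.log 2 (Nat.log 2 (x ^ b))) ≤ Nat.log 2 (Nat.log 2 (y ^ 2)) :=
        Nat.log_mono_right (Nat.log_mono_right h2)
    _ ≤ Nat.log 2 (4 * Nat.log 2 y) := Nat.log_mono_right (log_sq_le hy2)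
    _ = Nat.log 2 (Nat.log 2 y) + 2 := log_four_mul h4

/-! ### The fixed point lemma -/

/-- A colouring of `ℕ` that changes colour from `k` to `f k` whenever `f k < k`. -/
def col (f : ℕ → ℕ) (k : ℕ) : Bool :=
  if _h : f k < k then !(col f (f k)) else false
termination_by k

lemma col_eq (f : ℕ → ℕ) {k : ℕ} (h : f k < k) : col f k = !(col f (f k)) := by
  rw [col]
  simp [h]

/-- A nonprincipal ultrafilter on the positive integers contains all final segments. -/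
lemma eventually_ge {x : Ultrafilter ℕ+} (hx : (x : Filter ℕ+) ≤ cofinite) (K : ℕ) :
    ∀ᶠ m : ℕ+ in (x : Filter ℕ+), K ≤ (m : ℕ) := by
  have h : {m : ℕ+ | K ≤ (m : ℕ)}ᶜ.Finite := by
    have hsub : {m : ℕ+ | K ≤ (m : ℕ)}ᶜ ⊆ Set.Iic K.succPNat := by
      intro m hm
      have hm' : ¬ K ≤ (m : ℕ) := hm
      rw [Set.mem_Iic, ← PNat.coe_le_coe, Nat.succPNat_coe]
      omega
    exact (Set.finite_Iic _).subset hsub
  exact hx (Filter.mem_cofinite.2 h)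

/-- For a nonprincipal ultrafilter `x` the images of `x` under `m ↦ log log m + d` and under
`m ↦ log log log m + e` differ. -/
lemma separate {x : Ultrafilter ℕ+} (hx : (x : Filter ℕ+) ≤ cofinite) (d e : ℕ) :
    ∃ C : Set ℕ, ¬ ((∀ᶠ m : ℕ+ in (x : Filter ℕ+), Nat.log 2 (Nat.log 2 m) + d ∈ C) ↔
      (∀ᶠ m : ℕ+ in (x : Filter ℕ+), Nat.log 2 (Nat.log 2 (Nat.log 2 m)) + e ∈ C)) := by
  classical
  let f : ℕ → ℕ := fun k => Nat.log 2 k + e - d
  refine ⟨{N | d ≤ N ∧ col f (N - d) = true}, ?_⟩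
  intro hiff
  -- all large `m` satisfy the numerical requirements
  have hlarge : ∀ᶠ m : ℕ+ in (x : Filter ℕ+),
      d ≤ Nat.log 2 (Nat.log 2 (Nat.log 2 m)) + e ∧
      f (Nat.log 2 (Nat.log 2 m)) < Nat.log 2 (Nat.log 2 m) := by
    filter_upwards [eventually_ge hx (2 ^ (2 ^ (2 ^ (d + e + 2) + 2 * (d + e + 2))))] with m hm
    set k := Nat.log 2 (Nat.log 2 m) with hk
    have hkK : 2 ^ (d + e + 2) + 2 * (d + e + 2) ≤ k := by
      rw [hk]
      apply Nat.le_log_of_pow_le (by norm_num)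
      apply Nat.le_log_of_pow_le (by norm_num)
      exact hm
    have hpos : 0 < 2 ^ (d + e + 2) := by positivity
    have h1 : d + e + 2 ≤ Nat.log 2 k := by
      apply Nat.le_log_of_pow_le (by norm_num)
      omega
    refine ⟨by omega, ?_⟩
    show Nat.log 2 k + e - d < k
    -- `2 * log k ≤ k` suffices
    have h2 : 2 ^ Nat.log 2 k ≤ k := Nat.pow_log_le_self 2 (by omega)
    have h3 : ∀ t : ℕ, 4 ≤ t → 2 * t ≤ 2 ^ t := by
      intro t ht
      induction t, ht using Nat.le_induction with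
      | base => norm_num
      | succ n hn ih => rw [pow_succ]; omega
    by_cases h5 : 4 ≤ Nat.log 2 k
    · have := h3 _ h5
      omega
    · omega
  by_cases hc : ∀ᶠ m : ℕ+ in (x : Filter ℕ+), col f (Nat.log 2 (Nat.log 2 m)) = true
  · have h1 : ∀ᶠ m : ℕ+ in (x : Filter ℕ+),
        Nat.log 2 (Nat.log 2 m) + d ∈ {N | d ≤ N ∧ col f (N - d) = true} := by
      filter_upwards [hc] with m hm
      simpa using hm
    have h2 := hiff.1 h1
    obtain ⟨m, hm1, hm2, hm3, hm4⟩ := (hc.and (h2.and hlarge)).exists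
    have h5 := col_eq f hm4
    have h6 : col f (f (Nat.log 2 (Nat.log 2 m))) = true := hm2.2
    rw [h6, hm1] at h5
    exact absurd h5 (by decide)
  · have hc' : ∀ᶠ m : ℕ+ in (x : Filter ℕ+), ¬ (col f (Nat.log 2 (Nat.log 2 m)) = true) :=
      Ultrafilter.eventually_not.2 hc
    have h2 : ∀ᶠ m : ℕ+ in (x : Filter ℕ+),
        Nat.log 2 (Nat.log 2 (Nat.log 2 m)) + e ∈ {N | d ≤ N ∧ col f (N - d) = true} := by
      filter_upwards [hc', hlarge] with m hm1 hm2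
      refine ⟨hm2.1, ?_⟩
      have h5 := col_eq f hm2.2
      have h6 : col f (Nat.log 2 (Nat.log 2 m)) = false := by simpa using hm1
      rw [h6] at h5
      show col f (f (Nat.log 2 (Nat.log 2 m))) = true
      cases h7 : col f (f (Nat.log 2 (Nat.log 2 m))) with
      | true => rfl
      | false => rw [h7] at h5; exact absurd h5 (by decide)
    have h1 := hiff.2 h2
    obtain ⟨m, hm1, hm2⟩ := (h1.and hc').exists
    apply hm2
    simpa using hm1.2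

/-- The triple logarithm. -/
def F (N : ℕ+) : ℕ := Nat.log 2 (Nat.log 2 (Nat.log 2 (N : ℕ)))

/-- `p` arbitrary and `q` nonprincipal: no coincidence. -/
lemma ne_of_right (p q : Ultrafilter ℕ+) (hq : (q : Filter ℕ+) ≤ cofinite) :
    E1 p q ≠ E2 p q := by
  classical
  intro hE
  by_cases hp1 : ∀ᶠ n : ℕ+ in (p : Filter ℕ+), n = 1
  · -- `p` is principal at `1`
    have h1 : ({1} : Set ℕ+) ∈ E1 p q := by
      show {n : ℕ+ | {m : ℕ+ | n ^ (m : ℕ) ∈ ({1} : Set ℕ+)} ∈ q} ∈ p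
      filter_upwards [hp1] with n hn
      subst hn
      show ∀ᶠ m : ℕ+ in (q : Filter ℕ+), (1 : ℕ+) ^ (m : ℕ) ∈ ({1} : Set ℕ+)
      exact Filter.Eventually.of_forall (fun m => by simp)
    rw [hE] at h1
    have h2 : ∀ᶠ n : ℕ+ in (p : Filter ℕ+), ∀ᶠ m : ℕ+ in (q : Filter ℕ+),
      m ^ (n : ℕ) ∈ ({1} : Set ℕ+) := h1
    obtain ⟨n, hn, hn1⟩ := (h2.and hp1).exists
    subst hn1
    obtain ⟨m, hm, hm2⟩ := (hn.and (eventually_ge hq 2)).exists
    simp only [PNat.one_coe, pow_one, Set.mem_singleton_iff] at hm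
    subst hm
    norm_num at hm2
  · have hp2 : ∀ᶠ n : ℕ+ in (p : Filter ℕ+), 2 ≤ (n : ℕ) := by
      have := Ultrafilter.eventually_not.2 hp1
      filter_upwards [this] with n hn
      have h1 : 0 < (n : ℕ) := n.pos
      rcases Nat.lt_or_ge 1 (n : ℕ) with h | h
      · exact h
      · exact absurd (PNat.coe_eq_one_iff.1 (by omega)) hn
    have hA : ∀ᶠ n : ℕ+ in (p : Filter ℕ+), ∀ᶠ m : ℕ+ in (q : Filter ℕ+),
        F (n ^ (m : ℕ)) = Nat.log 2 (Nat.log 2 m) + 0 ∨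
        F (n ^ (m : ℕ)) = Nat.log 2 (Nat.log 2 m) + 1 ∨
        F (n ^ (m : ℕ)) = Nat.log 2 (Nat.log 2 m) + 2 := by
      filter_upwards [hp2] with n hn
      filter_upwards [eventually_ge hq ((n : ℕ) + 2)] with m hm
      have h := log_base hn hm
      have : F (n ^ (m : ℕ)) = Nat.log 2 (Nat.log 2 (Nat.log 2 ((n : ℕ) ^ (m : ℕ)))) := by
        simp [F]
      rw [this]
      omega
    have hB : ∀ᶠ n : ℕ+ in (p : Filter ℕ+), ∀ᶠ m : ℕ+ in (q : Filter ℕ+),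
        F (m ^ (n : ℕ)) = Nat.log 2 (Nat.log 2 (Nat.log 2 m)) + 0 ∨
        F (m ^ (n : ℕ)) = Nat.log 2 (Nat.log 2 (Nat.log 2 m)) + 1 ∨
        F (m ^ (n : ℕ)) = Nat.log 2 (Nat.log 2 (Nat.log 2 m)) + 2 := by
      filter_upwards [] with n
      filter_upwards [eventually_ge hq (2 ^ (2 * (n : ℕ) + 2))] with m hm
      have h := log_exp n.pos hm
      have : F (m ^ (n : ℕ)) = Nat.log 2 (Nat.log 2 (Nat.log 2 ((m : ℕ) ^ (n : ℕ)))) := by
        simp [F]
      rw [this]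
      omega
    simp only [Ultrafilter.eventually_or] at hA hB
    have hA' : ∃ d : ℕ, ∀ᶠ n : ℕ+ in (p : Filter ℕ+), ∀ᶠ m : ℕ+ in (q : Filter ℕ+),
        F (n ^ (m : ℕ)) = Nat.log 2 (Nat.log 2 m) + d := by
      rcases hA with h | h | h
      exacts [⟨0, h⟩, ⟨1, h⟩, ⟨2, h⟩]
    have hB' : ∃ e : ℕ, ∀ᶠ n : ℕ+ in (p : Filter ℕ+), ∀ᶠ m : ℕ+ in (q : Filter ℕ+),
        F (m ^ (n : ℕ)) = Nat.log 2 (Nat.log 2 (Nat.log 2 m)) + e := by
      rcases hB with h | h | h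
      exacts [⟨0, h⟩, ⟨1, h⟩, ⟨2, h⟩]
    obtain ⟨d, hd⟩ := hA'
    obtain ⟨e, he⟩ := hB'
    obtain ⟨C, hC⟩ := separate hq d e
    apply hC
    have hm1 : F ⁻¹' C ∈ E1 p q ↔
        ∀ᶠ m : ℕ+ in (q : Filter ℕ+), Nat.log 2 (Nat.log 2 m) + d ∈ C := by
      constructor
      · intro h
        have h' : ∀ᶠ n : ℕ+ in (p : Filter ℕ+), ∀ᶠ m : ℕ+ in (q : Filter ℕ+),
          F (n ^ (m : ℕ)) ∈ C := h
        obtain ⟨n, hn1, hn2⟩ := (h'.and hd).exists
        filter_upwards [hn1, hn2] with m h1 h2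
        rwa [h2] at h1
      · intro h
        show ∀ᶠ n : ℕ+ in (p : Filter ℕ+), ∀ᶠ m : ℕ+ in (q : Filter ℕ+), F (n ^ (m : ℕ)) ∈ C
        filter_upwards [hd] with n hn
        filter_upwards [hn, h] with m h1 h2
        rwa [h1]
    have hm2 : F ⁻¹' C ∈ E2 p q ↔
        ∀ᶠ m : ℕ+ in (q : Filter ℕ+), Nat.log 2 (Nat.log 2 (Nat.log 2 m)) + e ∈ C := by
      constructor
      · intro h
        have h' : ∀ᶠ n : ℕ+ in (p : Filter ℕ+), ∀ᶠ m : ℕ+ in (q : Filter ℕ+),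
          F (m ^ (n : ℕ)) ∈ C := h
        obtain ⟨n, hn1, hn2⟩ := (h'.and he).exists
        filter_upwards [hn1, hn2] with m h1 h2
        rwa [h2] at h1
      · intro h
        show ∀ᶠ n : ℕ+ in (p : Filter ℕ+), ∀ᶠ m : ℕ+ in (q : Filter ℕ+), F (m ^ (n : ℕ)) ∈ C
        filter_upwards [he] with n hn
        filter_upwards [hn, h] with m h1 h2
        rwa [h1]
    rw [← hm1, ← hm2, hE]

/-- `p` nonprincipal and `q` principal: no coincidence. -/
lemma ne_of_left (p : Ultrafilter ℕ+) (b : ℕ+) (hp : (p : Filter ℕ+) ≤ cofinite) :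
    E1 p (pure b) ≠ E2 p (pure b) := by
  classical
  intro hE
  have hmem1 : ∀ A : Set ℕ+, A ∈ E1 p (pure b) ↔
      ∀ᶠ n : ℕ+ in (p : Filter ℕ+), n ^ (b : ℕ) ∈ A := by
    intro A
    rfl
  have hmem2 : ∀ A : Set ℕ+, A ∈ E2 p (pure b) ↔
      ∀ᶠ n : ℕ+ in (p : Filter ℕ+), b ^ (n : ℕ) ∈ A := by
    intro A
    rfl
  by_cases hb : b = 1
  · subst hb
    have h2 : ({1} : Set ℕ+) ∈ E2 p (pure 1) := by
      rw [hmem2]
      simp
    rw [← hE, hmem1] at h2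
    obtain ⟨m, hm, hm2⟩ := (h2.and (eventually_ge hp 2)).exists
    simp only [PNat.one_coe, pow_one, Set.mem_singleton_iff] at hm
    subst hm
    norm_num at hm2
  · have hb2 : 2 ≤ (b : ℕ) := by
      have h1 : 0 < (b : ℕ) := b.pos
      rcases Nat.lt_or_ge 1 (b : ℕ) with h | h
      · exact h
      · exact absurd (PNat.coe_eq_one_iff.1 (by omega)) hb
    have hA : ∀ᶠ n : ℕ+ in (p : Filter ℕ+),
        F (b ^ (n : ℕ)) = Nat.log 2 (Nat.log 2 n) + 0 ∨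
        F (b ^ (n : ℕ)) = Nat.log 2 (Nat.log 2 n) + 1 ∨
        F (b ^ (n : ℕ)) = Nat.log 2 (Nat.log 2 n) + 2 := by
      filter_upwards [eventually_ge hp ((b : ℕ) + 2)] with m hm
      have h := log_base hb2 hm
      have : F (b ^ (m : ℕ)) = Nat.log 2 (Nat.log 2 (Nat.log 2 ((b : ℕ) ^ (m : ℕ)))) := by
        simp [F]
      rw [this]
      omega
    have hB : ∀ᶠ n : ℕ+ in (p : Filter ℕ+),
        F (n ^ (b : ℕ)) = Nat.log 2 (Nat.log 2 (Nat.log 2 n)) + 0 ∨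
        F (n ^ (b : ℕ)) = Nat.log 2 (Nat.log 2 (Nat.log 2 n)) + 1 ∨
        F (n ^ (b : ℕ)) = Nat.log 2 (Nat.log 2 (Nat.log 2 n)) + 2 := by
      filter_upwards [eventually_ge hp (2 ^ (2 * (b : ℕ) + 2))] with m hm
      have h := log_exp b.pos hm
      have : F (m ^ (b : ℕ)) = Nat.log 2 (Nat.log 2 (Nat.log 2 ((m : ℕ) ^ (b : ℕ)))) := by
        simp [F]
      rw [this]
      omega
    simp only [Ultrafilter.eventually_or] at hA hB
    have hA' : ∃ d : ℕ, ∀ᶠ n : ℕ+ in (p : Filter ℕ+),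
        F (b ^ (n : ℕ)) = Nat.log 2 (Nat.log 2 n) + d := by
      rcases hA with h | h | h
      exacts [⟨0, h⟩, ⟨1, h⟩, ⟨2, h⟩]
    have hB' : ∃ e : ℕ, ∀ᶠ n : ℕ+ in (p : Filter ℕ+),
        F (n ^ (b : ℕ)) = Nat.log 2 (Nat.log 2 (Nat.log 2 n)) + e := by
      rcases hB with h | h | h
      exacts [⟨0, h⟩, ⟨1, h⟩, ⟨2, h⟩]
    obtain ⟨d, hd⟩ := hA'
    obtain ⟨e, he⟩ := hB'
    obtain ⟨C, hC⟩ := separate hp d e
    apply hC
    have hm1 : F ⁻¹' C ∈ E2 p (pure b) ↔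
        ∀ᶠ m : ℕ+ in (p : Filter ℕ+), Nat.log 2 (Nat.log 2 m) + d ∈ C := by
      rw [hmem2]
      apply eventually_congr
      filter_upwards [hd] with m hm
      rw [Set.mem_preimage, hm]
    have hm2 : F ⁻¹' C ∈ E1 p (pure b) ↔
        ∀ᶠ m : ℕ+ in (p : Filter ℕ+), Nat.log 2 (Nat.log 2 (Nat.log 2 m)) + e ∈ C := by
      rw [hmem1]
      apply eventually_congr
      filter_upwards [he] with m hm
      rw [Set.mem_preimage, hm]
    rw [← hm1, ← hm2, hE]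

/-- **Main theorem.**  For ultrafilters `p`, `q` on the positive integers, `E₁(p,q) = E₂(p,q)` if
and only if `p` and `q` are both principal, at `a` and `b` say, and `a^b = b^a`.  In particular
no pair of nonprincipal ultrafilters satisfies `E₁(p,q) = E₂(p,q)`. -/
theorem result (p q : Ultrafilter ℕ+) :
    E1 p q = E2 p q ↔
      ∃ a b : ℕ+, p = pure a ∧ q = pure b ∧ a ^ (b : ℕ) = b ^ (a : ℕ) := by
  constructor
  · intro hE
    rcases q.le_cofinite_or_eq_pure with hq | ⟨b, rfl⟩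
    · exact absurd hE (ne_of_right p q hq)
    · rcases p.le_cofinite_or_eq_pure with hp | ⟨a, rfl⟩
      · exact absurd hE (ne_of_left p b hp)
      · refine ⟨a, b, rfl, rfl, ?_⟩
        have h1 : ({a ^ (b : ℕ)} : Set ℕ+) ∈ E1 (pure a) (pure b) := by
          show a ^ (b : ℕ) ∈ ({a ^ (b : ℕ)} : Set ℕ+)
          rfl
        rw [hE] at h1
        have h2 : b ^ (a : ℕ) ∈ ({a ^ (b : ℕ)} : Set ℕ+) := h1
        exact (Set.mem_singleton_iff.1 h2).symm
  · rintro ⟨a, b, rfl, rfl, h⟩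
    ext A
    show a ^ (b : ℕ) ∈ A ↔ b ^ (a : ℕ) ∈ A
    rw [h]

end Pool.Agent.Results.MP_846ee0_co.NoCoincidence
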